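import Pool.Agent.helper54.UG.Spec3

/-! Row SGB: the subspace when the first basis vector is isotropic. -/

set_option autoImplicit false

namespace Pool.Agent.UG

open Matrix Pool.Agent.H48SL

/-- `XX S v` as a linear map -/
def SGB_L {n : ℕ} (S : MQ n) (v : Fin n → ℚ) : (Fin n → ℚ) →ₗ[ℚ] MQ n where
  toFun a := XX S v a
  map_add' a b := by
    ext i j
    simp only [XX, Matrix.sub_apply, Matrix.add_apply, vecMulVec_apply, Pi.add_apply, mulVec_add]
    ring
  map_smul' c a := by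
    ext i j
    simp only [XX, Matrix.sub_apply, Matrix.smul_apply, vecMulVec_apply, Pi.smul_apply, mulVec_smul,
      RingHom.id_apply, smul_eq_mul]
    ring

/-- the orthogonal space of `v` -/
def SGB_K {n : ℕ} (S : MQ n) (v : Fin n → ℚ) : Submodule ℚ (Fin n → ℚ) where
  carrier := {a | bf S v a = 0}
  add_mem' {a b} ha hb := by
    simp only [Set.mem_ofPred_eq, bf] at ha hb ⊢
    rw [mulVec_add, dotProduct_add, ha, hb, add_zero]
  zero_mem' := by
    simp [bf]
  smul_mem' c a ha := by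
    simp only [Set.mem_ofPred_eq, bf] at ha ⊢
    rw [mulVec_smul, dotProduct_smul, ha, smul_zero]

theorem SGB_sym {n : ℕ} {S : MQ n} (hS : Sᵀ = S) (x y : Fin n → ℚ) :
    (S *ᵥ x) ⬝ᵥ y = bf S x y := by
  unfold bf
  rw [dotProduct_comm, dotProduct_mulVec, ← mulVec_transpose, hS, dotProduct_comm]

theorem SGB_sym2 {n : ℕ} {S : MQ n} (hS : Sᵀ = S) (x y : Fin n → ℚ) : bf S x y = bf S y x := by
  rw [← SGB_sym hS]
  unfold bf
  rw [dotProduct_comm]

theorem SGB_mul {n : ℕ} {S : MQ n} (hS : Sᵀ = S) {v a b : Fin n → ℚ} (hv : bf S v v = 0)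
    (ha : bf S v a = 0) (hb : bf S v b = 0) :
    XX S v a * XX S v b = -(bf S a b) • vecMulVec v (S *ᵥ v) := by
  unfold XX
  rw [sub_mul, mul_sub, mul_sub, vecMulVec_mul_vecMulVec, vecMulVec_mul_vecMulVec,
    vecMulVec_mul_vecMulVec, vecMulVec_mul_vecMulVec, SGB_sym hS, SGB_sym hS, SGB_sym hS,
    SGB_sym hS, hv, hb, SGB_sym2 hS a v, ha]
  ext i j
  simp [vecMulVec_apply]

theorem SGB_mul2 {n : ℕ} {S : MQ n} (hS : Sᵀ = S) {v c : Fin n → ℚ} (hv : bf S v v = 0)
    (hc : bf S v c = 0) : vecMulVec v (S *ᵥ v) * XX S v c = 0 := by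
  unfold XX
  rw [mul_sub, vecMulVec_mul_vecMulVec, vecMulVec_mul_vecMulVec, SGB_sym hS, SGB_sym hS, hv, hc]
  ext i j
  simp

theorem SGB (hSXP : SXP_stmt) : SGB_stmt := by
  intro n hn S H hS hdet hO hv
  refine ⟨(SGB_K S (e0 n)).map (SGB_L S (e0 n)), ?_, ?_, ?_, ?_⟩
  · rintro X ⟨a, ha, rfl⟩
    have ha' : bf S (e0 n) a = 0 := ha
    show XX S (e0 n) a *ᵥ e0 n = 0
    unfold XX
    rw [sub_mulVec, vecMulVec_mulVec, vecMulVec_mulVec, SGB_sym hS, SGB_sym hS, hv,
      SGB_sym2 hS a, ha']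
    ext i
    simp
  · refine ⟨3, fun l hl hlen => ?_⟩
    match l, hl, hlen with
    | X :: Y :: Z :: l', hl, _ =>
      obtain ⟨a, ha, hX⟩ := hl X (by simp)
      obtain ⟨b, hb, hY⟩ := hl Y (by simp)
      obtain ⟨c, hc, hZ⟩ := hl Z (by simp)
      have ha' : bf S (e0 n) a = 0 := ha
      have hb' : bf S (e0 n) b = 0 := hb
      have hc' : bf S (e0 n) c = 0 := hc
      have h1 : X * Y * Z = 0 := by
        rw [← hX, ← hY, ← hZ]
        show XX S (e0 n) a * XX S (e0 n) b * XX S (e0 n) c = 0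
        rw [SGB_mul hS hv ha' hb', smul_mul_assoc, SGB_mul2 hS hv hc', smul_zero]
      rw [List.prod_cons, List.prod_cons, List.prod_cons, ← mul_assoc, ← mul_assoc, h1, zero_mul]
    | [], _, h => simp at h
    | [_], _, h => simp at h
    | [_, _], _, h => simp at h
  · rintro X ⟨a, ha, rfl⟩
    exact (hSXP (n + 1) S H hS hO (e0 n) a hv ha).2
  · intro η
    set χ : Fin (n + 1) → ℚ := S *ᵥ e0 n with hχ
    have hχ0 : χ 0 = 0 := by
      have : bf S (e0 n) (e0 n) = χ 0 := by
        unfold bf e0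
        rw [single_one_dotProduct]
        rfl
      rw [← this, hv]
    have hχne : χ ≠ 0 := by
      intro h0
      have h1 : e0 n = 0 := eq_zero_of_mulVec_eq_zero hdet h0
      have h2 := congrFun h1 0
      simp [e0] at h2
    obtain ⟨j, hj⟩ : ∃ j, χ j ≠ 0 := by
      by_contra hcon
      push Not at hcon
      exact hχne (funext hcon)
    obtain ⟨j', rfl⟩ : ∃ j' : Fin n, j = j'.succ := by
      refine ⟨j.pred ?_, (Fin.succ_pred _ _).symm⟩
      rintro rfl
      exact hj hχ0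
    let M : Matrix (Fin 2) (Fin n) ℚ := Matrix.of ![fun i => χ i.succ, η]
    have hker : LinearMap.ker (Matrix.mulVecLin M) ≠ ⊥ := by
      apply LinearMap.ker_ne_bot_of_finrank_lt
      simp
      omega
    obtain ⟨a', ha', hne⟩ := Submodule.exists_mem_ne_zero_of_ne_bot hker
    rw [LinearMap.mem_ker, Matrix.mulVecLin_apply] at ha'
    have h1 : (fun i => χ (Fin.succ i)) ⬝ᵥ a' = 0 := congrFun ha' 0
    have h2 : η ⬝ᵥ a' = 0 := congrFun ha' 1
    let a : Fin (n + 1) → ℚ := Fin.cons 0 a'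
    have hBa : bf S (e0 n) a = 0 := by
      rw [← SGB_sym hS, ← hχ]
      unfold dotProduct
      rw [Fin.sum_univ_succ, hχ0, zero_mul, zero_add]
      exact h1
    have hdn : ∀ i k, dn (XX S (e0 n) a) i k = a' i * χ k.succ := by
      intro i k
      rw [dn_apply]
      unfold XX
      rw [Matrix.sub_apply, vecMulVec_apply, vecMulVec_apply]
      have : e0 n i.succ = 0 := by
        unfold e0
        rw [Pi.single_eq_of_ne (Fin.succ_ne_zero i)]
      rw [this, zero_mul, sub_zero]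
      rfl
    refine ⟨XX S (e0 n) a, ⟨a, hBa, rfl⟩, ?_, ?_⟩
    · obtain ⟨i, hi⟩ : ∃ i, a' i ≠ 0 := by
        by_contra hcon
        push Not at hcon
        exact hne (funext hcon)
      intro h0
      have h3 := congrFun (congrFun h0 i) j'
      rw [hdn] at h3
      exact (mul_ne_zero hi hj) h3
    · ext k
      unfold vecMul dotProduct
      simp only [hdn]
      have : ∑ i, η i * (a' i * χ k.succ) = (∑ i, η i * a' i) * χ k.succ := by
        rw [Finset.sum_mul]
        exact Finset.sum_congr rfl fun i _ => (mul_assoc _ _ _).symm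
      rw [this]
      have h4 : ∑ i, η i * a' i = 0 := h2
      rw [h4, zero_mul]
      rfl

end Pool.Agent.UG
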